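import Mathlib
import Pool.Agent.H33.NecDefs

namespace Pool.Agent.Results.MP_484523_pr.Q1
open Pool.Agent.H33.Nec
open scoped Classical

lemma step_true {y : ℤ × ℤ → Bool} {s : ℤ × ℤ} (h : step y s = true) :
    (y s = true ∧ y (s + (1, 0)) = true) ∨ (y s = true ∧ y (s + (0, 1)) = true) ∨
      (y (s + (1, 0)) = true ∧ y (s + (0, 1)) = true) := by
  simpa [step, maj, or_assoc] using h

lemma quad (y : ℤ × ℤ → Bool) (A B : ℤ) (h : ∀ s, y s = true → A ≤ s.1 ∧ B ≤ s.2) (t : ℕ) :
    ∀ s, step^[t] y s = true → A ≤ s.1 ∧ B ≤ s.2 := by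
  induction t with
  | zero => exact h
  | succ t ih =>
    intro s hs
    rw [Function.iterate_succ_apply'] at hs
    rcases step_true hs with h | h | h
    · exact ih _ h.1
    · exact ih _ h.1
    · have a := ih _ h.1
      have b := ih _ h.2
      simp at a b; omega

lemma diag (y : ℤ × ℤ → Bool) (C : ℤ) (h : ∀ s, y s = true → s.1 + s.2 ≤ C) (t : ℕ) :
    ∀ s, step^[t] y s = true → s.1 + s.2 + t ≤ C := by
  induction t with
  | zero => simpa using h
  | succ t ih =>
    intro s hs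
    rw [Function.iterate_succ_apply'] at hs
    rcases step_true hs with h | h | h <;> (have b := ih _ h.2; simp at b ⊢; omega)

lemma split (l u : ℤ × ℤ → Bool) (C A : ℤ) (hl : ∀ s, l s = true → s.1 + s.2 ≤ C)
    (hu : ∀ s, u s = true → A ≤ s.1 ∧ 0 ≤ s.2) (h : C + 1 < A) (t : ℕ) :
    step^[t] (fun s => l s || u s) = fun s => step^[t] l s || step^[t] u s := by
  induction t with
  | zero => rfl
  | succ t ih =>
    funext s
    simp only [Function.iterate_succ_apply', ih]
    have a := diag l C hl t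
    have b := quad u A 0 hu t
    have a0 := a s; have a1 := a (s + (1, 0)); have a2 := a (s + (0, 1))
    have b0 := b s; have b1 := b (s + (1, 0)); have b2 := b (s + (0, 1))
    simp only [step, maj]
    simp only [Prod.fst_add, Prod.snd_add] at a1 a2 b1 b2
    revert a0 a1 a2 b0 b1 b2
    cases step^[t] l s <;> cases step^[t] l (s + (1, 0)) <;> cases step^[t] l (s + (0, 1)) <;>
      cases step^[t] u s <;> cases step^[t] u (s + (1, 0)) <;> cases step^[t] u (s + (0, 1)) <;>
      simp <;> omega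

lemma fin_supp (l : ℤ × ℤ → Bool) (C M : ℤ) (h : ∀ s, l s = true → (M ≤ s.1 ∧ M ≤ s.2) ∧ s.1 + s.2 ≤ C) :
    {p | TR l p = true}.Finite := by
  refine (((Set.finite_Icc M (C - M)).prod (Set.finite_Icc M (C - M))).prod
    (Set.finite_Iic (C - 2 * M).toNat)).subset fun p hp => ?_
  have a := quad l M M (fun s hs => (h s hs).1) p.2 p.1 hp
  have b := diag l C (fun s hs => (h s hs).2) p.2 p.1 hp
  simp only [Set.mem_prod, Set.mem_Icc, Set.mem_Iic]
  omega

noncomputable def isl (s : ℤ × ℤ) : Bool :=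
  decide (∃ k : ℕ, (k : ℤ) ^ 2 ≤ s.1 ∧ 0 ≤ s.2 ∧ s.1 + s.2 ≤ (k : ℤ) ^ 2 + k)

lemma isl_iff (s : ℤ × ℤ) :
    isl s = true ↔ ∃ k : ℕ, (k : ℤ) ^ 2 ≤ s.1 ∧ 0 ≤ s.2 ∧ s.1 + s.2 ≤ (k : ℤ) ^ 2 + k := by
  simp [isl]

lemma survive (k t : ℕ) : ∀ s : ℤ × ℤ, (k : ℤ) ^ 2 ≤ s.1 → 0 ≤ s.2 → s.1 + s.2 + t ≤ (k : ℤ) ^ 2 + k →
    step^[t] isl s = true := by
  induction t with
  | zero => exact fun s a b c => (isl_iff s).2 ⟨k, a, b, by simpa using c⟩
  | succ t ih =>
    intro s a b c
    rw [Function.iterate_succ_apply']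
    have h1 := ih s a b (by push_cast at c; omega)
    have h2 := ih (s + (1, 0)) (by simp; omega) (by simpa using b) (by simp at c ⊢; omega)
    simp [step, maj, h1, h2]

theorem result : ∃ y : ℤ × ℤ → Bool, Attractor y ∧
    ∀ t : ℕ, {s | TR y (s, t) = true}.Infinite ∧ {s | TR y (s, t) = false}.Infinite := by
  refine ⟨isl, fun y' hy => ?_, fun t => ⟨?_, ?_⟩⟩
  · obtain ⟨R, hR⟩ := (hy.image fun s => (s.1.natAbs + s.2.natAbs : ℕ)).bddAbove
    have hR' : ∀ s, y' s ≠ isl s → s.1.natAbs + s.2.natAbs ≤ R := fun s hs => hR ⟨s, hs, rfl⟩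
    set K : ℕ := R + 2 with hK
    set C : ℤ := (K : ℤ) ^ 2 - K with hC
    have RC : (R : ℤ) ≤ C := by rw [hC, hK]; push_cast; nlinarith
    let u : ℤ × ℤ → Bool := fun s => isl s && decide (C < s.1 + s.2)
    have hu : ∀ s, u s = true → (K : ℤ) ^ 2 ≤ s.1 ∧ 0 ≤ s.2 := by
      intro s hs
      simp only [u, Bool.and_eq_true, decide_eq_true_eq, isl_iff] at hs
      obtain ⟨⟨k, a, b, c⟩, d⟩ := hs
      refine ⟨le_trans ?_ a, b⟩
      have : K ≤ k := by
        by_contra h
        have : (k : ℤ) + 1 ≤ K := by exact_mod_cast not_le.1 h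
        nlinarith
      gcongr
    have key : ∀ z : ℤ × ℤ → Bool, (∀ s, z s ≠ isl s → s.1.natAbs + s.2.natAbs ≤ R) →
        ∃ S : Set ((ℤ × ℤ) × ℕ), S.Finite ∧ ∀ p ∉ S, TR z p = TR u p := by
      intro z hz
      let l : ℤ × ℤ → Bool := fun s => z s && decide (s.1 + s.2 ≤ C)
      have e : z = fun s => l s || u s := by
        funext s
        by_cases h : s.1 + s.2 ≤ C
        · simp [l, u, h]
        · have : z s = isl s := by
            by_contra hn
            have := hz s hn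
            omega
          simp [l, u, h, this, not_le.1 h]
      have hl : ∀ s, l s = true → (-(R : ℤ) ≤ s.1 ∧ -(R : ℤ) ≤ s.2) ∧ s.1 + s.2 ≤ C := by
        intro s hs
        simp only [l, Bool.and_eq_true, decide_eq_true_eq] at hs
        refine ⟨?_, hs.2⟩
        by_cases h : z s = isl s
        · obtain ⟨k, a, b, -⟩ := (isl_iff s).1 (h ▸ hs.1)
          have := sq_nonneg (k : ℤ)
          omega
        · have := hz s h
          omega
      refine ⟨_, fin_supp l C _ hl, fun p hp => ?_⟩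
      have h1 : step^[p.2] l p.1 = false := by simpa [TR] using hp
      unfold TR
      rw [e, split l u C _ (fun s hs => (hl s hs).2) hu (by rw [hC, hK]; push_cast; omega)]
      simp [h1]
    obtain ⟨S, s1, s2⟩ := key y' hR'
    obtain ⟨T, t1, t2⟩ := key isl fun s h => absurd rfl h
    refine (s1.union t1).subset fun p hp => ?_
    by_contra hn
    simp only [Set.mem_union, not_or] at hn
    exact hp ((s2 p hn.1).trans (t2 p hn.2).symm)
  · refine Set.infinite_of_injective_forall_mem (f := fun n : ℕ => ((((n + t : ℕ) : ℤ) ^ 2, 0) : ℤ × ℤ))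
      (fun a b h => ?_) fun n => survive (n + t) t _ le_rfl le_rfl (by simp)
    have h1 : ((a + t : ℕ) : ℤ) ^ 2 = ((b + t : ℕ) : ℤ) ^ 2 := congrArg Prod.fst h
    have h2 : (a + t) ^ 2 = (b + t) ^ 2 := by exact_mod_cast h1
    have := Nat.pow_left_injective two_ne_zero h2
    omega
  · refine Set.infinite_of_injective_forall_mem (f := fun n : ℕ => (((n : ℤ), -1) : ℤ × ℤ))
      (fun a b h => by simpa using h) fun n => ?_
    by_contra h
    have := (quad isl 0 0 (fun s hs => by
      obtain ⟨k, a, b, -⟩ := (isl_iff s).1 hs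
      exact ⟨(sq_nonneg _).trans a, b⟩) t ((n : ℤ), -1) (by simpa [TR] using h)).2
    simp at this

end Pool.Agent.Results.MP_484523_pr.Q1
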